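import Mathlib

open MeasureTheory Complex

namespace Pool.Agent.Results.MP_19ca7b_an.LatticePlusFinite

/-- The short-time Fourier transform
`V_g f (x, ω) = ∫ f(t) conj(g(t - x)) exp(-2 π i ω t) dt`, where `l = (x, ω)`. -/
noncomputable def stft (g f : ℝ → ℂ) (l : ℝ × ℝ) : ℂ :=
  ∫ t : ℝ, f t * (starRingEnd ℂ) (g (t - l.1)) *
    Complex.exp (-(2 * (Real.pi : ℂ) * Complex.I * (l.2 : ℂ) * (t : ℂ)))

/-- `(g, Λ)` has the phase retrieval uniqueness property: for all `f, h` in `L²(ℝ)`, if
`|V_g f| = |V_g h|` on `Λ` then `f = exp(i α) h` (almost everywhere) for some real `α`. -/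
def UniquenessProperty (g : ℝ → ℂ) (Λ : Set (ℝ × ℝ)) : Prop :=
  ∀ f h : ℝ → ℂ, MemLp f 2 volume → MemLp h 2 volume →
    (∀ l ∈ Λ, ‖stft g f l‖ = ‖stft g h l‖) →
    ∃ α : ℝ, f =ᵐ[volume] fun t => Complex.exp (Complex.I * (α : ℂ)) * h t

/-- `Λ` has finite deficiency for the window `g`: adding some finite set of points gives a set with
the uniqueness property. -/
def FiniteDeficiency (g : ℝ → ℂ) (Λ : Set (ℝ × ℝ)) : Prop :=
  ∃ P : Set (ℝ × ℝ), P.Finite ∧ UniquenessProperty g (Λ ∪ P)

/-- The shifted lattice `v + A ℤ²`. -/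
def shiftedLattice (A : Matrix (Fin 2) (Fin 2) ℝ) (v : ℝ × ℝ) : Set (ℝ × ℝ) :=
  {l | ∃ m n : ℤ, l = (v.1 + (A 0 0 * m + A 0 1 * n), v.2 + (A 1 0 * m + A 1 1 * n))}

/-! ### No eigenfunctions -/

/-- An integrable nonnegative function which is a.e. invariant under a nonzero translation
vanishes. -/
lemma integral_eq_zero_of_translation (φ : ℝ → ℝ) (hφ : Integrable φ) (c : ℝ) (hc : 0 < c)
    (h : (fun t => φ (t - c)) =ᵐ[volume] φ) : ∫ t, φ t = 0 := by
  have hstep : ∀ s : ℝ, ∫ t in Set.Ioi (s + c), φ t = ∫ t in Set.Ioi s, φ t := by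
    intro s
    have h1 : ∫ t in Set.Ioi (s + c), φ t = ∫ t in Set.Ioi (s + c), φ (t - c) := by
      apply setIntegral_congr_ae measurableSet_Ioi
      filter_upwards [h] with t ht _
      exact ht.symm
    rw [h1]
    have := (MeasureTheory.measurePreserving_sub_right volume c).setIntegral_preimage_emb
      (MeasurableEquiv.subRight c).measurableEmbedding φ (Set.Ioi s)
    rw [← this]
    congr 2
    ext t
    simp
  have hstepn : ∀ n : ℕ, ∀ s : ℝ, ∫ t in Set.Ioi (s + n * c), φ t = ∫ t in Set.Ioi s, φ t := by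
    intro n
    induction n with
    | zero => intro s; simp
    | succ n ih =>
      intro s
      have : s + ((n + 1 : ℕ) : ℝ) * c = (s + n * c) + c := by push_cast; ring
      rw [this, hstep, ih]
  have hnc : Filter.Tendsto (fun n : ℕ => (n : ℝ) * c) Filter.atTop Filter.atTop :=
    Filter.Tendsto.atTop_mul_const hc tendsto_natCast_atTop_atTop
  -- integral over Ioi (n c) tends to zero
  have hA : Filter.Tendsto (fun n : ℕ => ∫ t in (-(n * c))..(n * c), φ t) Filter.atTop
      (nhds (∫ t, φ t)) :=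
    intervalIntegral_tendsto_integral hφ (Filter.tendsto_neg_atTop_atBot.comp hnc) hnc
  have hB : ∀ n : ℕ, ∫ t in (-(n * c))..(n * c), φ t = 0 := by
    intro n
    have hle : -((n : ℝ) * c) ≤ n * c := by
      have : (0 : ℝ) ≤ n * c := by positivity
      linarith
    have h2 := intervalIntegral.integral_Ioi_sub_Ioi' (μ := volume) (f := φ)
      (a := -((n : ℝ) * c)) (b := n * c) hφ.integrableOn hφ.integrableOn
    rw [← h2]
    have h3 := hstepn (2 * n) (-((n : ℝ) * c))
    have h4 : -((n : ℝ) * c) + ((2 * n : ℕ) : ℝ) * c = n * c := by push_cast; ring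
    rw [h4] at h3
    rw [h3, sub_self]
  simp only [hB] at hA
  exact (tendsto_nhds_unique hA tendsto_const_nhds)


/-- The time-frequency shift `F ↦ (t ↦ exp(2 π i m t) F(t - c))` as a linear map on functions. -/
noncomputable def tfShift (c m : ℝ) : (ℝ → ℂ) →ₗ[ℂ] (ℝ → ℂ) where
  toFun F := fun t => Complex.exp (2 * (Real.pi : ℂ) * Complex.I * (m : ℂ) * (t : ℂ)) * F (t - c)
  map_add' F G := by
    funext t
    simp [mul_add]
  map_smul' a F := by
    funext t
    simp only [Pi.smul_apply, smul_eq_mul, RingHom.id_apply]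
    ring

lemma norm_exp_two_pi (m t : ℝ) :
    ‖Complex.exp (2 * (Real.pi : ℂ) * Complex.I * (m : ℂ) * (t : ℂ))‖ = 1 := by
  have : (2 * (Real.pi : ℂ) * Complex.I * (m : ℂ) * (t : ℂ)) =
      ((2 * Real.pi * m * t : ℝ) : ℂ) * Complex.I := by push_cast; ring
  rw [this, Complex.norm_exp_ofReal_mul_I]

lemma memLp_tfShift (c m : ℝ) {F : ℝ → ℂ} (hF : MemLp F 2 volume) :
    MemLp (tfShift c m F) 2 volume := by
  have h1 : MemLp (fun t => F (t - c)) 2 volume :=
    hF.comp_measurePreserving (measurePreserving_sub_right volume c)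
  have hm : AEStronglyMeasurable (fun t : ℝ =>
      Complex.exp (2 * (Real.pi : ℂ) * Complex.I * (m : ℂ) * (t : ℂ))) volume := by
    apply Continuous.aestronglyMeasurable
    fun_prop
  refine h1.of_le (f := tfShift c m F) (hm.mul h1.1) ?_
  filter_upwards with t
  simp only [tfShift, LinearMap.coe_mk, AddHom.coe_mk, norm_mul, norm_exp_two_pi, one_mul]
  exact le_refl _

lemma memLp_aeval (c m : ℝ) {F : ℝ → ℂ} (hF : MemLp F 2 volume) (p : Polynomial ℂ) :
    MemLp (Polynomial.aeval (tfShift c m) p F) 2 volume := by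
  have hpow : ∀ n : ℕ, MemLp (((tfShift c m) ^ n) F) 2 volume := by
    intro n
    induction n with
    | zero => simpa using hF
    | succ n ih =>
      rw [pow_succ']
      exact memLp_tfShift c m ih
  rw [Polynomial.aeval_eq_sum_range, LinearMap.sum_apply]
  apply memLp_finsetSum'
  intro i _
  rw [LinearMap.smul_apply]
  exact (hpow i).const_smul _

/-- The time-frequency shift has no `L²` eigenfunctions. -/
lemma no_eigenfunction (c m : ℝ) (hc : 0 < c) (z : ℂ) {F : ℝ → ℂ} (hF : MemLp F 2 volume)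
    (h : tfShift c m F =ᵐ[volume] z • F) : F =ᵐ[volume] 0 := by
  set φ : ℝ → ℝ := fun t => ‖F t‖ ^ 2 with hφdef
  have hφ : Integrable φ := by
    have := hF.integrable_norm_pow (by norm_num)
    simpa [hφdef] using this
  have h1 : (fun t => φ (t - c)) =ᵐ[volume] fun t => ‖z‖ ^ 2 * φ t := by
    filter_upwards [h] with t ht
    have h2 : ‖tfShift c m F t‖ = ‖F (t - c)‖ := by
      simp only [tfShift, LinearMap.coe_mk, AddHom.coe_mk, norm_mul, norm_exp_two_pi, one_mul]
    have h3 : ‖tfShift c m F t‖ = ‖z‖ * ‖F t‖ := by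
      rw [ht]; simp
    simp only [hφdef]
    rw [← h2, h3, mul_pow]
  have h0 : ∫ t, φ t = 0 := by
    by_cases hz : ‖z‖ ^ 2 = 1
    · apply integral_eq_zero_of_translation φ hφ c hc
      filter_upwards [h1] with t ht
      rw [ht, hz, one_mul]
    · have h4 : ∫ t, φ (t - c) = ∫ t, φ t := integral_sub_right_eq_self φ c
      have h5 : ∫ t, φ (t - c) = ‖z‖ ^ 2 * ∫ t, φ t := by
        rw [integral_congr_ae h1, integral_const_mul]
      have h6 : (‖z‖ ^ 2 - 1) * ∫ t, φ t = 0 := by
        rw [sub_mul, ← h5, h4]; ring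
      rcases mul_eq_zero.mp h6 with h7 | h7
      · exact absurd (by linarith) hz
      · exact h7
  have hpos : 0 ≤ᵐ[volume] φ := by
    filter_upwards with t
    simp only [hφdef, Pi.zero_apply]
    positivity
  have := (integral_eq_zero_iff_of_nonneg_ae hpos hφ).mp h0
  filter_upwards [this] with t ht
  simpa [hφdef] using ht

/-- Nonzero polynomials in the time-frequency shift are injective on `L²`. -/
lemma aeval_injective (c m : ℝ) (hc : 0 < c) : ∀ (n : ℕ) (p : Polynomial ℂ), p.natDegree = n →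
    p ≠ 0 → ∀ F : ℝ → ℂ, MemLp F 2 volume →
      Polynomial.aeval (tfShift c m) p F =ᵐ[volume] 0 → F =ᵐ[volume] 0 := by
  intro n
  induction n with
  | zero =>
    intro p hp hp0 F hF h
    rw [Polynomial.natDegree_eq_zero] at hp
    obtain ⟨a, rfl⟩ := hp
    have ha : a ≠ 0 := by
      rintro rfl
      simp at hp0
    filter_upwards [h] with t ht
    simp only [Polynomial.aeval_C, Module.algebraMap_end_apply, Pi.smul_apply, smul_eq_mul,
      Pi.zero_apply, mul_eq_zero] at ht
    rcases ht with ht | ht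
    · exact absurd ht ha
    · simpa using ht
  | succ n ih =>
    intro p hp hp0 F hF h
    have hdeg : p.degree ≠ 0 := by
      intro hd
      rw [Polynomial.natDegree_eq_of_degree_eq_some (n := 0) (by simpa using hd)] at hp
      omega
    obtain ⟨z, hz⟩ := IsAlgClosed.exists_root p hdeg
    obtain ⟨q, hq⟩ := Polynomial.dvd_iff_isRoot.mpr hz
    have hq0 : q ≠ 0 := by
      rintro rfl
      simp at hq
      exact hp0 hq
    have hqdeg : q.natDegree = n := by
      have := Polynomial.natDegree_mul (Polynomial.X_sub_C_ne_zero z) hq0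
      rw [← hq, hp, Polynomial.natDegree_X_sub_C] at this
      omega
    have hH := memLp_aeval c m hF q
    apply ih q hqdeg hq0 F hF
    apply no_eigenfunction c m hc z hH
    have h2 : Polynomial.aeval (tfShift c m) p F =
        tfShift c m (Polynomial.aeval (tfShift c m) q F) -
          z • (Polynomial.aeval (tfShift c m) q F) := by
      rw [hq, map_mul, Module.End.mul_apply]
      simp only [map_sub, Polynomial.aeval_X, Polynomial.aeval_C, LinearMap.sub_apply,
        Module.algebraMap_end_apply]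
    rw [h2] at h
    filter_upwards [h] with t ht
    simp only [Pi.sub_apply, Pi.zero_apply] at ht
    exact sub_eq_zero.mp ht


/-! ### The family of functions -/

/-- The unimodular normalisation. -/
noncomputable def ph (c m : ℝ) (v : ℝ × ℝ) (k : ℕ) : ℂ :=
  Complex.exp ((Real.pi * (k * (c * v.2 - m * v.1) - k ^ 2 * c * m) : ℝ) * Complex.I)

/-- `F_k(t) = ph_k exp(2 π i k m t) g(k c - t)`. -/
noncomputable def fam (g : ℝ → ℂ) (c m : ℝ) (v : ℝ × ℝ) (k : ℕ) : ℝ → ℂ := fun t =>
  ph c m v k * Complex.exp ((2 * Real.pi * k * m * t : ℝ) * Complex.I) * g (k * c - t)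

lemma norm_exp_real_mul_I (x : ℝ) : ‖Complex.exp ((x : ℂ) * Complex.I)‖ = 1 :=
  Complex.norm_exp_ofReal_mul_I x

lemma tfShift_pow (g : ℝ → ℂ) (c m : ℝ) (k : ℕ) (t : ℝ) :
    ((tfShift c m) ^ k) (fun s => g (-s)) t =
      Complex.exp ((2 * Real.pi * k * m * t - Real.pi * m * c * (k * (k - 1)) : ℝ) * Complex.I) *
        g (k * c - t) := by
  induction k generalizing t with
  | zero => simp
  | succ k ih =>
    rw [pow_succ', Module.End.mul_apply]
    simp only [tfShift, LinearMap.coe_mk, AddHom.coe_mk]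
    have := ih (t - c)
    simp only [tfShift] at this
    rw [this, ← mul_assoc, ← Complex.exp_add]
    congr 1
    · congr 1
      push_cast
      ring
    · congr 1
      push_cast
      ring

/-- The scalar relating `fam` to the powers of the time-frequency shift. -/
noncomputable def sc (c m : ℝ) (v : ℝ × ℝ) (k : ℕ) : ℂ :=
  ph c m v k * Complex.exp ((Real.pi * m * c * (k * (k - 1)) : ℝ) * Complex.I)

lemma sc_ne_zero (c m : ℝ) (v : ℝ × ℝ) (k : ℕ) : sc c m v k ≠ 0 :=
  mul_ne_zero (Complex.exp_ne_zero _) (Complex.exp_ne_zero _)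

lemma fam_eq (g : ℝ → ℂ) (c m : ℝ) (v : ℝ × ℝ) (k : ℕ) :
    fam g c m v k = sc c m v k • ((tfShift c m) ^ k) (fun s => g (-s)) := by
  funext t
  rw [Pi.smul_apply, tfShift_pow, smul_eq_mul, sc, fam]
  rw [mul_assoc (ph c m v k) (Complex.exp _) (Complex.exp _ * g _), ← mul_assoc (Complex.exp _)
    (Complex.exp _) (g _), ← Complex.exp_add, mul_assoc]
  congr 3
  push_cast
  ring

lemma memLp_fam {g : ℝ → ℂ} (hg : MemLp g 2 volume) (c m : ℝ) (v : ℝ × ℝ) (k : ℕ) :
    MemLp (fam g c m v k) 2 volume := by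
  rw [fam_eq]
  apply MemLp.const_smul
  have hG : MemLp (fun s => g (-s)) 2 volume :=
    hg.comp_measurePreserving (Measure.measurePreserving_neg volume)
  have := memLp_aeval c m hG (Polynomial.X ^ k)
  simpa using this

/-- Integrability of the integrand of the STFT. -/
lemma integrable_stft {g f : ℝ → ℂ} (hg : MemLp g 2 volume) (hf : MemLp f 2 volume) (l : ℝ × ℝ) :
    Integrable (fun t : ℝ => f t * (starRingEnd ℂ) (g (t - l.1)) *
    Complex.exp (-(2 * (Real.pi : ℂ) * Complex.I * (l.2 : ℂ) * (t : ℂ)))) volume := by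
  have h1 : MemLp (fun t => g (t - l.1)) 2 volume :=
    hg.comp_measurePreserving (measurePreserving_sub_right volume l.1)
  have h2 : MemLp (fun t => (starRingEnd ℂ) (g (t - l.1))) 2 volume := h1.star
  have h3 : Integrable (fun t => f t * (starRingEnd ℂ) (g (t - l.1))) volume :=
    hf.integrable_mul h2
  have hm : AEStronglyMeasurable (fun t : ℝ =>
      Complex.exp (-(2 * (Real.pi : ℂ) * Complex.I * (l.2 : ℂ) * (t : ℂ)))) volume := by
    apply Continuous.aestronglyMeasurable
    fun_prop
  refine h3.mul_bdd (c := 1) hm ?_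
  filter_upwards with t
  have : -(2 * (Real.pi : ℂ) * Complex.I * (l.2 : ℂ) * (t : ℂ)) =
      ((-(2 * Real.pi * l.2 * t) : ℝ) : ℂ) * Complex.I := by push_cast; ring
  rw [this, Complex.norm_exp_ofReal_mul_I]

/-- Finite linear combinations. -/
lemma stft_sum {g : ℝ → ℂ} (hg : MemLp g 2 volume) {N : ℕ} (F : Fin N → ℝ → ℂ)
    (hF : ∀ k, MemLp (F k) 2 volume) (d : Fin N → ℂ) (l : ℝ × ℝ) :
    stft g (fun t => ∑ k, d k * F k t) l = ∑ k, d k * stft g (F k) l := by
  unfold stft
  simp_rw [Finset.sum_mul]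
  rw [integral_finsetSum]
  · apply Finset.sum_congr rfl
    intro k _
    rw [← integral_const_mul]
    congr 1
    funext t
    ring
  · intro k _
    have := (integrable_stft hg (hF k) l).const_mul (d k)
    refine this.congr ?_
    filter_upwards with t
    ring

/-- The key reality property. -/
lemma real_on_lattice (g : ℝ → ℂ) (c m : ℝ) (v : ℝ × ℝ) (k : ℕ) (l : ℝ × ℝ) (n : ℤ)
    (hl : c * (l.2 - v.2) - m * (l.1 - v.1) = n) :
    (starRingEnd ℂ) (Complex.exp ((Real.pi * l.1 * l.2 : ℝ) * Complex.I) *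
        stft g (fam g c m v k) l) =
      Complex.exp ((Real.pi * l.1 * l.2 : ℝ) * Complex.I) * stft g (fam g c m v k) l := by
  set I : ℂ := ∫ t : ℝ, g (k * c - t) * (starRingEnd ℂ) (g (t - l.1)) *
    Complex.exp ((-(2 * Real.pi * (l.2 - k * m) * t) : ℝ) * Complex.I) with hI
  have h1 : stft g (fam g c m v k) l = ph c m v k * I := by
    rw [hI, ← integral_const_mul]
    unfold stft fam
    congr 1
    funext t
    have : Complex.exp ((-(2 * Real.pi * (l.2 - k * m) * t) : ℝ) * Complex.I) =
        Complex.exp ((2 * Real.pi * k * m * t : ℝ) * Complex.I) *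
        Complex.exp (-(2 * (Real.pi : ℂ) * Complex.I * (l.2 : ℂ) * (t : ℂ))) := by
      rw [← Complex.exp_add]
      congr 1
      push_cast
      ring
    rw [this]
    ring
  have hconj : ∀ x : ℝ, (starRingEnd ℂ) (Complex.exp ((x : ℂ) * Complex.I)) =
      Complex.exp (((-x : ℝ) : ℂ) * Complex.I) := by
    intro x
    rw [← Complex.exp_conj, map_mul, Complex.conj_I, Complex.conj_ofReal]
    congr 1
    push_cast
    ring
  have h2 : (starRingEnd ℂ) I =
      Complex.exp ((2 * Real.pi * (l.2 - k * m) * (k * c + l.1) : ℝ) * Complex.I) * I := by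
    rw [hI, ← integral_conj]
    rw [← integral_sub_left_eq_self _ _ (k * c + l.1)]
    rw [← integral_const_mul]
    congr 1
    funext t
    simp only [map_mul, Complex.conj_conj]
    rw [hconj]
    have e1 : (k * c - (k * c + l.1 - t) : ℝ) = t - l.1 := by ring
    have e2 : (k * c + l.1 - t - l.1 : ℝ) = k * c - t := by ring
    rw [e1, e2]
    have : Complex.exp (((-(-(2 * Real.pi * (l.2 - k * m) * (k * c + l.1 - t)) : ℝ) : ℝ) : ℂ) *
        Complex.I) = Complex.exp ((2 * Real.pi * (l.2 - k * m) * (k * c + l.1) : ℝ) * Complex.I) *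
        Complex.exp ((-(2 * Real.pi * (l.2 - k * m) * t) : ℝ) * Complex.I) := by
      rw [← Complex.exp_add]
      congr 1
      push_cast
      ring
    rw [this]
    ring
  rw [h1, map_mul, map_mul, h2, hconj, ph, hconj, ← mul_assoc, ← mul_assoc, ← mul_assoc,
    ← Complex.exp_add, ← Complex.exp_add, ← Complex.exp_add]
  congr 1
  rw [Complex.exp_eq_exp_iff_exists_int]
  refine ⟨k * n, ?_⟩
  have hl' : ((c : ℂ) * (l.2 - v.2) - m * (l.1 - v.1)) = n := by exact_mod_cast hl
  push_cast
  rw [← hl']
  ring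


/-- Real-valuedness as an equality with a real number. -/
lemma exists_real_on_lattice (g : ℝ → ℂ) (c m : ℝ) (v : ℝ × ℝ) (k : ℕ) (l : ℝ × ℝ) (n : ℤ)
    (hl : c * (l.2 - v.2) - m * (l.1 - v.1) = n) :
    ∃ r : ℝ, stft g (fam g c m v k) l =
      Complex.exp ((-(Real.pi * l.1 * l.2) : ℝ) * Complex.I) * (r : ℂ) := by
  obtain ⟨r, hr⟩ := Complex.conj_eq_iff_real.mp (real_on_lattice g c m v k l n hl)
  refine ⟨r, ?_⟩
  rw [← hr, ← mul_assoc, ← Complex.exp_add]
  have : ((-(Real.pi * l.1 * l.2) : ℝ) : ℂ) * Complex.I +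
      ((Real.pi * l.1 * l.2 : ℝ) : ℂ) * Complex.I = 0 := by
    push_cast
    ring
  rw [this, Complex.exp_zero, one_mul]

/-- The trivial window has no uniqueness property. -/
lemma not_uniqueness_of_zero {g : ℝ → ℂ} (hg : g =ᵐ[volume] 0) (Λ : Set (ℝ × ℝ)) :
    ¬ UniquenessProperty g Λ := by
  intro h
  have hst : ∀ (f : ℝ → ℂ) (l : ℝ × ℝ), stft g f l = 0 := by
    intro f l
    unfold stft
    have h1 : (fun t => g (t - l.1)) =ᵐ[volume] 0 :=
      (measurePreserving_sub_right volume l.1).quasiMeasurePreserving.ae_eq_comp hg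
    rw [← integral_zero ℝ ℂ]
    apply integral_congr_ae
    filter_upwards [h1] with t ht
    simp only [Pi.zero_apply] at ht
    rw [ht]
    simp
  have hf : MemLp (Set.indicator (Set.Icc (0 : ℝ) 1) (fun _ => (1 : ℂ))) 2 volume := by
    apply memLp_indicator_const 2 measurableSet_Icc
    right
    simp
  obtain ⟨α, hα⟩ := h _ (fun _ => (0 : ℂ)) hf MemLp.zero' (by intro l _; rw [hst, hst])
  simp only [mul_zero] at hα
  have h0 : (volume : Measure ℝ) (Set.Icc (0 : ℝ) 1) = 0 := by
    apply measure_mono_null _ (ae_iff.mp hα)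
    intro t ht
    simp only [Set.mem_ofPred_eq, Set.indicator_of_mem ht]
    exact one_ne_zero
  simp at h0

/-- The main argument. -/
lemma main_arg {g : ℝ → ℂ} (hg : MemLp g 2 volume) (hg0 : ¬ g =ᵐ[volume] 0) (c m : ℝ)
    (hc : 0 < c) (v : ℝ × ℝ) (Λ : Set (ℝ × ℝ))
    (hΛ : ∀ l ∈ Λ, ∃ n : ℤ, c * (l.2 - v.2) - m * (l.1 - v.1) = n) (P : Set (ℝ × ℝ))
    (hP : P.Finite) : ¬ UniquenessProperty g (Λ ∪ P) := by
  intro huniq
  have : Fintype P := hP.fintype
  set N : ℕ := 2 * Fintype.card P + 2 with hN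
  -- the real-linear evaluation map
  let Θ : (Fin N → ℝ) →ₗ[ℝ] (P → ℂ) :=
    { toFun := fun a p => ∑ k : Fin N, (a k : ℂ) * stft g (fam g c m v k) p
      map_add' := by
        intro a b
        funext p
        simp [add_mul, Finset.sum_add_distrib]
      map_smul' := by
        intro r a
        funext p
        simp only [Pi.smul_apply, smul_eq_mul, RingHom.id_apply, Complex.real_smul,
          Finset.mul_sum, Complex.ofReal_mul]
        apply Finset.sum_congr rfl
        intro k _
        ring }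
  have hrank : 1 < Module.finrank ℝ (LinearMap.ker Θ) := by
    have h1 := LinearMap.finrank_range_add_finrank_ker Θ
    have h2 : Module.finrank ℝ (LinearMap.range Θ) ≤ Module.finrank ℝ (P → ℂ) :=
      Submodule.finrank_le _
    have h3 : Module.finrank ℝ (P → ℂ) = 2 * Fintype.card P := by
      rw [Module.finrank_pi_fintype]
      simp [Complex.finrank_real_complex, mul_comm]
    have h4 : Module.finrank ℝ (Fin N → ℝ) = N := by simp
    omega
  have hne : ∃ a : LinearMap.ker Θ, a ≠ 0 := by
    have : Nontrivial (LinearMap.ker Θ) :=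
      Module.nontrivial_of_finrank_pos (R := ℝ) (by omega)
    exact exists_ne 0
  obtain ⟨a, ha⟩ := hne
  obtain ⟨b, hab⟩ := exists_linearIndependent_pair_of_one_lt_finrank hrank ha
  -- the two functions
  set d1 : Fin N → ℂ := fun k => ((a : Fin N → ℝ) k : ℂ) + ((b : Fin N → ℝ) k : ℂ) * Complex.I
    with hd1
  set d2 : Fin N → ℂ := fun k => ((a : Fin N → ℝ) k : ℂ) - ((b : Fin N → ℝ) k : ℂ) * Complex.I
    with hd2
  have hmem : ∀ k : Fin N, MemLp (fam g c m v k) 2 volume := fun k => memLp_fam hg c m v k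
  have hmemsum : ∀ d : Fin N → ℂ, MemLp (fun t => ∑ k : Fin N, d k * fam g c m v k t) 2 volume := by
    intro d
    apply memLp_finsetSum
    intro k _
    exact (hmem k).const_mul (d k)
  obtain ⟨α, hα⟩ := huniq _ _ (hmemsum d1) (hmemsum d2) (by
    intro l hl
    rw [stft_sum hg _ hmem, stft_sum hg _ hmem]
    rcases hl with hl | hl
    · obtain ⟨n, hn⟩ := hΛ l hl
      choose r hr using fun k : Fin N => exists_real_on_lattice g c m v k l n hn
      simp_rw [hr]
      have e1 : ∀ d : Fin N → ℂ, ∑ k : Fin N, d k *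
          (Complex.exp ((-(Real.pi * l.1 * l.2) : ℝ) * Complex.I) * (r k : ℂ)) =
          Complex.exp ((-(Real.pi * l.1 * l.2) : ℝ) * Complex.I) * ∑ k : Fin N, d k * (r k : ℂ) := by
        intro d
        rw [Finset.mul_sum]
        apply Finset.sum_congr rfl
        intro k _
        ring
      rw [e1, e1, norm_mul, norm_mul]
      congr 1
      rw [← Complex.norm_conj, map_sum]
      congr 1
      apply Finset.sum_congr rfl
      intro k _
      simp [hd1, hd2]
      left
      ring
    · have hka : ∑ k : Fin N, ((a : Fin N → ℝ) k : ℂ) * stft g (fam g c m v k) l = 0 := by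
        exact congrFun (LinearMap.mem_ker.mp a.2) ⟨l, hl⟩
      have hkb : ∑ k : Fin N, ((b : Fin N → ℝ) k : ℂ) * stft g (fam g c m v k) l = 0 := by
        exact congrFun (LinearMap.mem_ker.mp b.2) ⟨l, hl⟩
      have e1 : ∑ k : Fin N, d1 k * stft g (fam g c m v k) l = 0 := by
        have : ∀ k : Fin N, d1 k * stft g (fam g c m v k) l =
            ((a : Fin N → ℝ) k : ℂ) * stft g (fam g c m v k) l +
            Complex.I * (((b : Fin N → ℝ) k : ℂ) * stft g (fam g c m v k) l) := by
          intro k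
          simp only [hd1]
          ring
        simp_rw [this]
        rw [Finset.sum_add_distrib, ← Finset.mul_sum, hka, hkb]
        simp
      have e2 : ∑ k : Fin N, d2 k * stft g (fam g c m v k) l = 0 := by
        have : ∀ k : Fin N, d2 k * stft g (fam g c m v k) l =
            ((a : Fin N → ℝ) k : ℂ) * stft g (fam g c m v k) l -
            Complex.I * (((b : Fin N → ℝ) k : ℂ) * stft g (fam g c m v k) l) := by
          intro k
          simp only [hd2]
          ring
        simp_rw [this]
        rw [Finset.sum_sub_distrib, ← Finset.mul_sum, hka, hkb]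
        simp
      rw [e1, e2])
  -- the polynomial
  set e : Fin N → ℂ := fun k => (d1 k - Complex.exp (Complex.I * α) * d2 k) * sc c m v k with he
  set q : Polynomial ℂ := ∑ k : Fin N, Polynomial.C (e k) * Polynomial.X ^ (k : ℕ) with hq
  have hG : MemLp (fun s => g (-s)) 2 volume :=
    hg.comp_measurePreserving (Measure.measurePreserving_neg volume)
  have hGne : ¬ (fun s => g (-s)) =ᵐ[volume] 0 := by
    intro h0
    apply hg0
    have := (Measure.measurePreserving_neg (volume : Measure ℝ)).quasiMeasurePreserving.ae_eq_comp h0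
    filter_upwards [this] with t ht
    simpa using ht
  have hq0 : q = 0 := by
    by_contra hqne
    apply hGne
    apply aeval_injective c m hc q.natDegree q rfl hqne _ hG
    have h1 : Polynomial.aeval (tfShift c m) q (fun s => g (-s)) =
        fun t => ∑ k : Fin N, (d1 k - Complex.exp (Complex.I * α) * d2 k) * fam g c m v k t := by
      funext t
      rw [hq, map_sum, LinearMap.sum_apply, Finset.sum_apply]
      apply Finset.sum_congr rfl
      intro k _
      rw [fam_eq, map_mul, map_pow, Polynomial.aeval_C, Polynomial.aeval_X, Module.End.mul_apply,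
        Module.algebraMap_end_apply, Pi.smul_apply, Pi.smul_apply, he]
      simp only [smul_eq_mul]
      ring
    rw [h1]
    filter_upwards [hα] with t ht
    simp only [Pi.zero_apply]
    have : ∑ k : Fin N, (d1 k - Complex.exp (Complex.I * α) * d2 k) * fam g c m v k t =
        ∑ k : Fin N, d1 k * fam g c m v k t -
          Complex.exp (Complex.I * α) * ∑ k : Fin N, d2 k * fam g c m v k t := by
      rw [Finset.mul_sum, ← Finset.sum_sub_distrib]
      apply Finset.sum_congr rfl
      intro k _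
      ring
    rw [this, ht, sub_self]
  have hek : ∀ k : Fin N, d1 k = Complex.exp (Complex.I * α) * d2 k := by
    intro k
    have h1 : q.coeff k = e k := by
      rw [hq, Polynomial.finsetSum_coeff]
      simp only [Polynomial.coeff_C_mul, Polynomial.coeff_X_pow]
      rw [Finset.sum_eq_single k]
      · simp
      · intro j _ hj
        have : (k : ℕ) ≠ (j : ℕ) := fun h => hj (Fin.ext h.symm)
        simp [this]
      · simp
    rw [hq0, Polynomial.coeff_zero] at h1
    have h2 : (d1 k - Complex.exp (Complex.I * α) * d2 k) * sc c m v k = 0 := h1.symm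
    rcases mul_eq_zero.mp h2 with h3 | h3
    · exact sub_eq_zero.mp h3
    · exact absurd h3 (sc_ne_zero c m v k)
  -- contradiction with linear independence
  have hreal : ∀ k : Fin N, Real.cos (α / 2) * (b : Fin N → ℝ) k =
      Real.sin (α / 2) * (a : Fin N → ℝ) k := by
    intro k
    have h1 := hek k
    have h2 : Complex.exp (-(Complex.I * (α / 2))) * d1 k =
        Complex.exp (Complex.I * (α / 2)) * d2 k := by
      rw [h1, ← mul_assoc, ← Complex.exp_add]
      congr 2
      ring
    have h3 : Complex.exp (Complex.I * (α / 2)) = Complex.cos (α / 2) + Complex.sin (α / 2) * Complex.I := by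
      rw [mul_comm, Complex.exp_mul_I]
    have h4 : Complex.exp (-(Complex.I * (α / 2))) =
        Complex.cos (α / 2) - Complex.sin (α / 2) * Complex.I := by
      have : -(Complex.I * ((α : ℂ) / 2)) = (-(α / 2 : ℂ)) * Complex.I := by ring
      rw [this, Complex.exp_mul_I, Complex.cos_neg, Complex.sin_neg]
      ring
    rw [h3, h4] at h2
    have h5 : Complex.cos (α / 2) = ((Real.cos (α / 2) : ℝ) : ℂ) := by push_cast; rfl
    have h6 : Complex.sin (α / 2) = ((Real.sin (α / 2) : ℝ) : ℂ) := by push_cast; rfl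
    rw [h5, h6] at h2
    simp only [hd1, hd2] at h2
    generalize Real.cos (α / 2) = C at h2 ⊢
    generalize Real.sin (α / 2) = S at h2 ⊢
    have h7 := congrArg Complex.im h2
    simp [Complex.add_im, Complex.mul_im, Complex.sub_im] at h7
    linarith
  rw [LinearIndependent.pair_iff] at hab
  have := hab (-Real.sin (α / 2)) (Real.cos (α / 2)) (by
    apply Subtype.ext
    funext k
    have := hreal k
    simp only [Submodule.coe_add, Submodule.coe_smul, Pi.add_apply, Pi.smul_apply, smul_eq_mul,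
      Submodule.coe_zero, Pi.zero_apply]
    linarith)
  have hcs := Real.sin_sq_add_cos_sq (α / 2)
  rw [this.2] at hcs
  have h8 : Real.sin (α / 2) = 0 := by linarith [this.1]
  rw [h8] at hcs
  norm_num at hcs

/-- **Negative answer to Q1.** For every window `g` in `L²(ℝ)` and every (shifted) lattice, the
lattice does not have finite deficiency: no union of the lattice with a finite set has the phase
retrieval uniqueness property. -/
theorem result (g : ℝ → ℂ) (hg : MemLp g 2 volume) (A : Matrix (Fin 2) (Fin 2) ℝ)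
    (hA : A.det ≠ 0) (v : ℝ × ℝ) : ¬ FiniteDeficiency g (shiftedLattice A v) := by
  rintro ⟨P, hP, hu⟩
  by_cases hg0 : g =ᵐ[volume] 0
  · exact not_uniqueness_of_zero hg0 _ hu
  have hdet : A.det = A 0 0 * A 1 1 - A 0 1 * A 1 0 := Matrix.det_fin_two A
  -- it suffices to find a direction with positive first coordinate
  suffices h : ∃ c m : ℝ, 0 < c ∧ ∀ l ∈ shiftedLattice A v,
      ∃ n : ℤ, c * (l.2 - v.2) - m * (l.1 - v.1) = n by
    obtain ⟨c, m, hc, h⟩ := h
    exact main_arg hg hg0 c m hc v _ h P hP hu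
  have key : ∀ c m : ℝ, c ≠ 0 → (∀ l ∈ shiftedLattice A v,
      ∃ n : ℤ, c * (l.2 - v.2) - m * (l.1 - v.1) = n) → ∃ c m : ℝ, 0 < c ∧
      ∀ l ∈ shiftedLattice A v, ∃ n : ℤ, c * (l.2 - v.2) - m * (l.1 - v.1) = n := by
    intro c m hc h
    rcases lt_or_gt_of_ne hc with h0 | h0
    · refine ⟨-c, -m, by linarith, ?_⟩
      intro l hl
      obtain ⟨n, hn⟩ := h l hl
      refine ⟨-n, ?_⟩
      push_cast
      rw [← hn]
      ring
    · exact ⟨c, m, h0, h⟩
  by_cases h00 : A 0 0 = 0
  · have h01 : A 0 1 ≠ 0 := by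
      intro h01
      rw [hdet, h00, h01] at hA
      simp at hA
    refine key (A 0 1 / A.det) (A 1 1 / A.det) (div_ne_zero h01 hA) ?_
    rintro l ⟨m, n, rfl⟩
    refine ⟨-m, ?_⟩
    simp only
    push_cast
    have : A 0 1 / A.det * (v.2 + (A 1 0 * m + A 1 1 * n) - v.2) -
        A 1 1 / A.det * (v.1 + (A 0 0 * m + A 0 1 * n) - v.1) =
        -((A 0 0 * A 1 1 - A 0 1 * A 1 0) / A.det) * m := by ring
    rw [this, ← hdet, div_self hA]
    ring
  · refine key (A 0 0 / A.det) (A 1 0 / A.det) (div_ne_zero h00 hA) ?_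
    rintro l ⟨m, n, rfl⟩
    refine ⟨n, ?_⟩
    simp only
    have : A 0 0 / A.det * (v.2 + (A 1 0 * m + A 1 1 * n) - v.2) -
        A 1 0 / A.det * (v.1 + (A 0 0 * m + A 0 1 * n) - v.1) =
        ((A 0 0 * A 1 1 - A 0 1 * A 1 0) / A.det) * n := by ring
    rw [this, ← hdet, div_self hA]
    ring

end Pool.Agent.Results.MP_19ca7b_an.LatticePlusFinite
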